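import Mathlib

/-!
# M1: the area formula for injective `C¹` immersions (helper10, for MP_41af65_gt)
-/

set_option autoImplicit false

namespace Pool.Agent.Helper74.Iso3

open Module InnerProductSpace MeasureTheory Set Filter Topology
open scoped ContDiff ENNReal NNReal

variable {E : Type*} [NormedAddCommGroup E] [InnerProductSpace ℝ E] [FiniteDimensional ℝ E]

lemma m1_comparison {X Y Z : Type*} [MetricSpace Y] [MeasurableSpace Y] [BorelSpace Y]
    [MetricSpace Z] [MeasurableSpace Z] [BorelSpace Z] {f : X → Y} {g : X → Z} {C : ℝ≥0}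
    {s : Set X} (h : ∀ x ∈ s, ∀ y ∈ s, dist (f x) (f y) ≤ C * dist (g x) (g y)) (d : ℕ) :
    μHE[d] (f '' s) ≤ (C : ℝ≥0∞) ^ d * μHE[d] (g '' s) := by
  rcases s.eq_empty_or_nonempty with rfl | ⟨x0, hx0⟩
  · simp
  have : Nonempty X := ⟨x0⟩
  have hL : LipschitzOnWith C (f ∘ Function.invFunOn g s) (g '' s) := by
    apply LipschitzOnWith.of_dist_le_mul
    rintro _ ⟨x, hx, rfl⟩ _ ⟨y, hy, rfl⟩
    have hx' : ∃ a ∈ s, g a = g x := ⟨x, hx, rfl⟩
    have hy' : ∃ a ∈ s, g a = g y := ⟨y, hy, rfl⟩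
    have h1 := h _ (Function.invFunOn_mem hx') _ (Function.invFunOn_mem hy')
    rw [Function.invFunOn_eq hx', Function.invFunOn_eq hy'] at h1
    exact h1
  have hsub : f '' s ⊆ (f ∘ Function.invFunOn g s) '' (g '' s) := by
    rintro _ ⟨x, hx, rfl⟩
    refine ⟨g x, ⟨x, hx, rfl⟩, ?_⟩
    have hx' : ∃ a ∈ s, g a = g x := ⟨x, hx, rfl⟩
    have h1 := h _ (Function.invFunOn_mem hx') _ hx
    rw [Function.invFunOn_eq hx', dist_self, mul_zero] at h1
    exact dist_le_zero.1 h1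
  have h1 := hL.hausdorffMeasure_image_le (d := (d : ℝ)) (Nat.cast_nonneg d)
  refine (measure_mono hsub).trans ?_
  rw [Measure.euclideanHausdorffMeasure_def, Measure.euclideanHausdorffMeasure_def,
    Measure.smul_apply, Measure.smul_apply, ENNReal.smul_def, ENNReal.smul_def, smul_eq_mul,
    smul_eq_mul, mul_left_comm]
  gcongr
  simpa using h1

lemma m1_continuous_normDet {F : Type*} [NormedAddCommGroup F] [InnerProductSpace ℝ F]
    [FiniteDimensional ℝ F] :
    Continuous (fun A : F →L[ℝ] E => LinearMap.normDet (A : F →ₗ[ℝ] E)) := by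
  have hE : CompleteSpace E := FiniteDimensional.complete ℝ E
  have hF : CompleteSpace F := FiniteDimensional.complete ℝ F
  have h : (fun A : F →L[ℝ] E => LinearMap.normDet (A : F →ₗ[ℝ] E)) =
      fun A : F →L[ℝ] E => √((ContinuousLinearMap.adjoint A ∘L A).det) := by
    funext A
    have h1 := ContinuousLinearMap.normDet_sq (𝕜 := ℝ) A
    rw [← h1]
    simp [Real.sqrt_sq (LinearMap.normDet_nonneg _)]
  rw [h]
  refine Real.continuous_sqrt.comp (ContinuousLinearMap.continuous_det.comp ?_)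
  exact (ContinuousLinearMap.adjoint (𝕜 := ℝ) (E := F) (F := E)).continuous.clm_comp continuous_id

/-- the local comparison -/
lemma m1_local [MeasurableSpace E] [BorelSpace E] {F : Type*}
    [NormedAddCommGroup F] [InnerProductSpace ℝ F]
    [FiniteDimensional ℝ F] [MeasurableSpace F] [BorelSpace F] {U : Set F} (hU : IsOpen U)
    {ψ : F → E} (hψ : ContDiffOn ℝ 1 ψ U)
    {k₀ : F} (hk₀ : k₀ ∈ U) (himm : Function.Injective (fderiv ℝ ψ k₀)) {c : ℝ} (hc : 1 < c) :
    ∃ N : Set F, IsOpen N ∧ k₀ ∈ N ∧ N ⊆ U ∧ ∀ s ⊆ N, MeasurableSet s →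
      μHE[finrank ℝ F] (ψ '' s) ≤ ENNReal.ofReal c *
        ∫⁻ k in s, ENNReal.ofReal (LinearMap.normDet (fderiv ℝ ψ k : F →ₗ[ℝ] E)) ∧
      ∫⁻ k in s, ENNReal.ofReal (LinearMap.normDet (fderiv ℝ ψ k : F →ₗ[ℝ] E)) ≤
        ENNReal.ofReal c * μHE[finrank ℝ F] (ψ '' s) := by
  set d := finrank ℝ F with hd
  set A := fderiv ℝ ψ k₀ with hA
  -- choice of θ
  obtain ⟨θ, hθ0, hθ1, hθc, hθc'⟩ : ∃ θ : ℝ, 0 < θ ∧ θ < 1 ∧ (1 + θ) ^ d * (1 + θ) ≤ c ∧
      ((1 - θ)⁻¹) ^ d * (1 + θ) ≤ c := by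
    have t1 : Tendsto (fun θ : ℝ => (1 + θ) ^ d * (1 + θ)) (𝓝[>] 0) (𝓝 1) := by
      have : Tendsto (fun θ : ℝ => (1 + θ) ^ d * (1 + θ)) (𝓝 0) (𝓝 ((1 + 0) ^ d * (1 + 0))) := by
        apply Continuous.tendsto (by fun_prop)
      simp only [add_zero, one_pow, mul_one] at this
      exact this.mono_left nhdsWithin_le_nhds
    have t2 : Tendsto (fun θ : ℝ => ((1 - θ)⁻¹) ^ d * (1 + θ)) (𝓝[>] 0) (𝓝 1) := by
      have : Tendsto (fun θ : ℝ => ((1 - θ)⁻¹) ^ d * (1 + θ)) (𝓝 0)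
          (𝓝 (((1 - 0)⁻¹) ^ d * (1 + 0))) := by
        apply Tendsto.mul
        · apply Tendsto.pow
          apply Tendsto.inv₀
          · apply Continuous.tendsto (by fun_prop)
          · norm_num
        · apply Continuous.tendsto (by fun_prop)
      simp only [add_zero, sub_zero, inv_one, one_pow, mul_one] at this
      exact this.mono_left nhdsWithin_le_nhds
    have t3 : ∀ᶠ θ : ℝ in 𝓝[>] 0, 0 < θ ∧ θ < 1 := Ioo_mem_nhdsGT one_pos
    obtain ⟨θ, h1, h2, h3⟩ := ((t1.eventually_lt_const hc).and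
      ((t2.eventually_lt_const hc).and t3)).exists
    exact ⟨θ, h3.1, h3.2, h1.le, h2.le⟩
  -- antilipschitz
  obtain ⟨K, hK0, hK⟩ := LinearMap.exists_antilipschitzWith (A : F →ₗ[ℝ] E)
    (LinearMap.ker_eq_bot.2 himm)
  have hK' : ∀ x y : F, dist x y ≤ K * dist (A x) (A y) := fun x y => hK.le_mul_dist x y
  have hKpos : (0 : ℝ) < K := by exact_mod_cast hK0
  have hstr : HasStrictFDerivAt ψ A k₀ :=
    (hψ.contDiffAt (hU.mem_nhds hk₀)).hasStrictFDerivAt one_ne_zero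
  set c0 : ℝ≥0 := ⟨θ / K, by positivity⟩ with hc0
  have hc0pos : 0 < c0 := by
    rw [← NNReal.coe_pos]
    exact div_pos hθ0 hKpos
  obtain ⟨N1, hN1, hap⟩ := hstr.approximates_deriv_on_nhds (c := c0) (Or.inr hc0pos)
  -- continuity of normDet
  have hcont : ContinuousAt (fun k => LinearMap.normDet (fderiv ℝ ψ k : F →ₗ[ℝ] E)) k₀ := by
    have h1 : ContinuousAt (fderiv ℝ ψ) k₀ :=
      (hψ.continuousOn_fderiv_of_isOpen hU le_rfl).continuousAt (hU.mem_nhds hk₀)
    exact (m1_continuous_normDet (E := E) (F := F)).continuousAt.comp h1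
  set D := LinearMap.normDet (A : F →ₗ[ℝ] E) with hD
  have hDpos : 0 < D := by
    refine lt_of_le_of_ne (LinearMap.normDet_nonneg _) (Ne.symm ?_)
    exact ((LinearMap.normDet_ne_zero_tfae (A : F →ₗ[ℝ] E)).out 0 4).2 himm
  have hlt1 : D < (1 + θ) * D := by nlinarith
  have hlt2 : D / (1 + θ) < D := by
    rw [div_lt_iff₀ (by linarith)]; nlinarith
  have hev : ∀ᶠ k in 𝓝 k₀, LinearMap.normDet (fderiv ℝ ψ k : F →ₗ[ℝ] E) < (1 + θ) * D ∧
      D / (1 + θ) < LinearMap.normDet (fderiv ℝ ψ k : F →ₗ[ℝ] E) :=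
    (hcont.eventually_lt_const hlt1).and (hcont.eventually_const_lt hlt2)
  obtain ⟨N, hNsub, hNo, hNk⟩ := mem_nhds_iff.1 (inter_mem (inter_mem hN1 (hU.mem_nhds hk₀)) hev)
  refine ⟨N, hNo, hNk, fun x hx => (hNsub hx).1.2, fun s hs hsm => ?_⟩
  have hdist : ∀ x ∈ s, ∀ y ∈ s, ‖(ψ x - ψ y) - (A x - A y)‖ ≤ θ * dist (A x) (A y) := by
    intro x hx y hy
    have h1 := hap x (hNsub (hs hx)).1.1 y (hNsub (hs hy)).1.1
    have h2 : (c0 : ℝ) = θ / K := rfl
    rw [h2, map_sub, ← dist_eq_norm x y] at h1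
    refine h1.trans ?_
    calc θ / K * dist x y ≤ θ / K * (K * dist (A x) (A y)) := by
          gcongr
          exact hK' x y
      _ = θ * dist (A x) (A y) := by field_simp
  have hup : ∀ x ∈ s, ∀ y ∈ s, dist (ψ x) (ψ y) ≤
      (Real.toNNReal (1 + θ) : ℝ) * dist (A x) (A y) := by
    intro x hx y hy
    have h1 := hdist x hx y hy
    rw [dist_eq_norm (ψ x), Real.coe_toNNReal _ (by positivity)]
    have h2 : ‖ψ x - ψ y‖ ≤ ‖(ψ x - ψ y) - (A x - A y)‖ + ‖A x - A y‖ := by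
      have := norm_add_le ((ψ x - ψ y) - (A x - A y)) (A x - A y)
      rwa [sub_add_cancel] at this
    rw [← dist_eq_norm (A x)] at h2
    linarith
  have hlow : ∀ x ∈ s, ∀ y ∈ s, dist (A x) (A y) ≤
      (Real.toNNReal (1 - θ)⁻¹ : ℝ) * dist (ψ x) (ψ y) := by
    intro x hx y hy
    have h1 := hdist x hx y hy
    rw [Real.coe_toNNReal _ (inv_nonneg.2 (by linarith))]
    have h2 : ‖A x - A y‖ ≤ ‖(ψ x - ψ y) - (A x - A y)‖ + ‖ψ x - ψ y‖ := by
      have := norm_sub_le ((ψ x - ψ y)) ((ψ x - ψ y) - (A x - A y))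
      rw [sub_sub_cancel] at this
      linarith
    rw [← dist_eq_norm (A x), ← dist_eq_norm (ψ x)] at h2
    have h3 : (1 - θ) * dist (A x) (A y) ≤ dist (ψ x) (ψ y) := by linarith
    rw [inv_mul_eq_div, le_div_iff₀ (by linarith)]
    linarith
  have e1 := m1_comparison hup d
  have e2 := m1_comparison hlow d
  have hvol : μHE[d] ((fun x => A x) '' s) = ENNReal.ofReal D * volume s :=
    LinearMap.euclideanHausdorffMeasure_image_eq_normDet_mul_volume (A : F →ₗ[ℝ] E) s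
  rw [hvol] at e1 e2
  have i1 : ENNReal.ofReal D * volume s ≤ ENNReal.ofReal (1 + θ) *
      ∫⁻ k in s, ENNReal.ofReal (LinearMap.normDet (fderiv ℝ ψ k : F →ₗ[ℝ] E)) := by
    rw [← lintegral_const_mul' _ _ ENNReal.ofReal_ne_top, ← setLIntegral_const]
    refine setLIntegral_mono' hsm fun k hk => ?_
    rw [← ENNReal.ofReal_mul (by positivity)]
    apply ENNReal.ofReal_le_ofReal
    have := ((hNsub (hs hk)).2).2
    rw [div_lt_iff₀ (by linarith)] at this
    linarith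
  have i2 : ∫⁻ k in s, ENNReal.ofReal (LinearMap.normDet (fderiv ℝ ψ k : F →ₗ[ℝ] E)) ≤
      ENNReal.ofReal (1 + θ) * (ENNReal.ofReal D * volume s) := by
    rw [← mul_assoc, ← ENNReal.ofReal_mul (by positivity), ← setLIntegral_const]
    refine setLIntegral_mono' hsm fun k hk => ?_
    apply ENNReal.ofReal_le_ofReal
    exact ((hNsub (hs hk)).2).1.le
  have hcoe1 : ((Real.toNNReal (1 + θ) : ℝ≥0) : ℝ≥0∞) = ENNReal.ofReal (1 + θ) := rfl
  have hcoe2 : ((Real.toNNReal (1 - θ)⁻¹ : ℝ≥0) : ℝ≥0∞) = ENNReal.ofReal ((1 - θ)⁻¹) := rfl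
  rw [hcoe1] at e1
  rw [hcoe2] at e2
  constructor
  · calc μHE[d] (ψ '' s) ≤ ENNReal.ofReal (1 + θ) ^ d * (ENNReal.ofReal D * volume s) := e1
      _ ≤ ENNReal.ofReal (1 + θ) ^ d * (ENNReal.ofReal (1 + θ) * _) := by gcongr
      _ = ENNReal.ofReal ((1 + θ) ^ d * (1 + θ)) * _ := by
          rw [ENNReal.ofReal_mul (by positivity), ENNReal.ofReal_pow (by positivity), mul_assoc]
      _ ≤ ENNReal.ofReal c * _ := by gcongr
  · have hinv : 0 ≤ (1 - θ)⁻¹ := inv_nonneg.2 (by linarith)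
    calc ∫⁻ k in s, ENNReal.ofReal (LinearMap.normDet (fderiv ℝ ψ k : F →ₗ[ℝ] E))
        ≤ ENNReal.ofReal (1 + θ) * (ENNReal.ofReal D * volume s) := i2
      _ ≤ ENNReal.ofReal (1 + θ) * (ENNReal.ofReal ((1 - θ)⁻¹) ^ d * μHE[d] (ψ '' s)) := by
          gcongr
      _ = ENNReal.ofReal (((1 - θ)⁻¹) ^ d * (1 + θ)) * μHE[d] (ψ '' s) := by
          rw [ENNReal.ofReal_mul (by positivity), ENNReal.ofReal_pow hinv]
          ring
      _ ≤ ENNReal.ofReal c * _ := by gcongr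

lemma m1_le_of_forall {x y : ℝ≥0∞} (h : ∀ c : ℝ, 1 < c → x ≤ ENNReal.ofReal c * y) : x ≤ y := by
  have t1 : Tendsto (fun c : ℝ => ENNReal.ofReal c * y) (𝓝[>] 1) (𝓝 (ENNReal.ofReal 1 * y)) := by
    apply ENNReal.Tendsto.mul_const
    · exact (ENNReal.continuous_ofReal.tendsto 1).mono_left nhdsWithin_le_nhds
    · left; simp
  rw [ENNReal.ofReal_one, one_mul] at t1
  exact ge_of_tendsto t1 (by filter_upwards [self_mem_nhdsWithin] with c hc using h c hc)

theorem muHE_image_immersion [MeasurableSpace E] [BorelSpace E] {F : Type*}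
    [NormedAddCommGroup F] [InnerProductSpace ℝ F]
    [FiniteDimensional ℝ F] [MeasurableSpace F] [BorelSpace F] {U : Set F} (hU : IsOpen U)
    {ψ : F → E} (hψ : ContDiffOn ℝ 1 ψ U) (hinj : InjOn ψ U)
    (himm : ∀ k ∈ U, Function.Injective (fderiv ℝ ψ k)) {s : Set F} (hs : MeasurableSet s)
    (hsU : s ⊆ U) :
    μHE[finrank ℝ F] (ψ '' s) =
      ∫⁻ k in s, ENNReal.ofReal (LinearMap.normDet (fderiv ℝ ψ k : F →ₗ[ℝ] E)) := by
  rcases s.eq_empty_or_nonempty with rfl | hsne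
  · simp
  have hUne : U.Nonempty := hsne.mono hsU
  have : ProperSpace F := FiniteDimensional.proper ℝ F
  have key : ∀ c : ℝ, 1 < c →
      μHE[finrank ℝ F] (ψ '' s) ≤ ENNReal.ofReal c *
        ∫⁻ k in s, ENNReal.ofReal (LinearMap.normDet (fderiv ℝ ψ k : F →ₗ[ℝ] E)) ∧
      ∫⁻ k in s, ENNReal.ofReal (LinearMap.normDet (fderiv ℝ ψ k : F →ₗ[ℝ] E)) ≤
        ENNReal.ofReal c * μHE[finrank ℝ F] (ψ '' s) := by
    intro c hc
    choose! N hNo hNk hNU hN using fun k₀ (hk₀ : k₀ ∈ U) => m1_local hU hψ hk₀ (himm k₀ hk₀) hc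
    obtain ⟨t, htU, htc, hcov⟩ := TopologicalSpace.countable_cover_nhdsWithin (f := N) (s := U)
      (fun x hx => mem_nhdsWithin_of_mem_nhds ((hNo x hx).mem_nhds (hNk x hx)))
    have htne : t.Nonempty := by
      obtain ⟨x, hx⟩ := hUne
      have := hcov hx
      simp only [mem_iUnion] at this
      obtain ⟨i, hi, -⟩ := this
      exact ⟨i, hi⟩
    obtain ⟨e, rfl⟩ := htc.exists_eq_range htne
    set B : ℕ → Set F := fun n => N (e n) with hB
    have hBm : ∀ n, MeasurableSet (B n) := fun n => (hNo _ (htU ⟨n, rfl⟩)).measurableSet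
    set S : ℕ → Set F := fun n => s ∩ disjointed B n with hS
    have hSm : ∀ n, MeasurableSet (S n) := fun n => hs.inter (MeasurableSet.disjointed hBm n)
    have hSd : Pairwise (Function.onFun Disjoint S) := by
      intro i j hij
      exact (disjoint_disjointed B hij).mono inter_subset_right inter_subset_right
    have hSU : ∀ n, S n ⊆ U := fun n => inter_subset_left.trans hsU
    have hunion : s = ⋃ n, S n := by
      rw [hS, ← inter_iUnion, iUnion_disjointed]
      refine (inter_eq_left.2 ?_).symm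
      intro x hx
      have := hcov (hsU hx)
      simp only [mem_iUnion, mem_range, exists_prop, exists_exists_eq_and] at this
      obtain ⟨n, hn⟩ := this
      exact mem_iUnion.2 ⟨n, hn⟩
    have hnu : μHE[finrank ℝ F] (ψ '' s) = ∑' n, μHE[finrank ℝ F] (ψ '' S n) := by
      conv_lhs => rw [hunion, image_iUnion]
      apply measure_iUnion
      · intro i j hij
        have h1 : Disjoint (S i) (S j) := hSd hij
        exact (hinj.image_inter (hSU i) (hSU j) ▸ by
          simp [disjoint_iff_inter_eq_empty.1 h1] : ψ '' S i ∩ ψ '' S j = ∅) |>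
            disjoint_iff_inter_eq_empty.2
      · intro n
        exact (hSm n).image_of_continuousOn_injOn (hψ.continuousOn.mono (hSU n))
          (hinj.mono (hSU n))
    have hlam : ∫⁻ k in s, ENNReal.ofReal (LinearMap.normDet (fderiv ℝ ψ k : F →ₗ[ℝ] E)) =
        ∑' n, ∫⁻ k in S n, ENNReal.ofReal (LinearMap.normDet (fderiv ℝ ψ k : F →ₗ[ℝ] E)) := by
      conv_lhs => rw [hunion]
      exact lintegral_iUnion hSm hSd _
    have hloc := fun n => hN (e n) (htU ⟨n, rfl⟩) (S n)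
      (inter_subset_right.trans (disjointed_subset B n)) (hSm n)
    rw [hnu, hlam, ← ENNReal.tsum_mul_left, ← ENNReal.tsum_mul_left]
    exact ⟨ENNReal.tsum_le_tsum fun n => (hloc n).1, ENNReal.tsum_le_tsum fun n => (hloc n).2⟩
  exact le_antisymm (m1_le_of_forall fun c hc => (key c hc).1)
    (m1_le_of_forall fun c hc => (key c hc).2)

end Pool.Agent.Helper74.Iso3
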