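import Mathlib
import Pool.Agent.Helper74.Iso.Charts
import Pool.Agent.Helper74.Iso3.Defs3

/-!
# M3a: existence of a box chart at an interior point (helper10, for MP_41af65_gt)
-/

set_option autoImplicit false

namespace Pool.Agent.Helper74.Iso3

open Module InnerProductSpace MeasureTheory Set Filter Topology
open Pool.Agent.Helper74.Iso Pool.Agent.Helper74.Iso2
open scoped ContDiff ENNReal

variable {E : Type*} [NormedAddCommGroup E] [InnerProductSpace ℝ E] [FiniteDimensional ℝ E]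

/-- the linear map `(s, t) ↦ s u + t v` -/
noncomputable def m3aL (u v : E) : ℝ × ℝ →L[ℝ] E :=
  (ContinuousLinearMap.fst ℝ ℝ ℝ).smulRight u + (ContinuousLinearMap.snd ℝ ℝ ℝ).smulRight v

omit [FiniteDimensional ℝ E] in
lemma m3aL_apply (u v : E) (k : ℝ × ℝ) : m3aL u v k = k.1 • u + k.2 • v := by
  simp [m3aL]

lemma m3a_basis {K : Submodule ℝ E} (hK : finrank ℝ K = 2) :
    ∃ u v : E, u ∈ K ∧ v ∈ K ∧ ‖u‖ = 1 ∧ ‖v‖ = 1 ∧ ⟪u, v⟫_ℝ = 0 ∧
      ∀ w ∈ K, w = ⟪u, w⟫_ℝ • u + ⟪v, w⟫_ℝ • v := by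
  let b : OrthonormalBasis (Fin 2) ℝ K := (stdOrthonormalBasis ℝ K).reindex (finCongr hK)
  refine ⟨b 0, b 1, (b 0).2, (b 1).2, ?_, ?_, ?_, ?_⟩
  · exact b.orthonormal.1 0
  · exact b.orthonormal.1 1
  · exact b.orthonormal.2 (show (0 : Fin 2) ≠ 1 by decide)
  · intro w hw
    have h := b.sum_repr' ⟨w, hw⟩
    rw [Fin.sum_univ_two] at h
    have h' := congrArg (Subtype.val) h
    simp only [Submodule.coe_add, Submodule.coe_smul, Submodule.coe_inner] at h'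
    exact h'.symm

theorem exists_box_interior {M B : Set E} (h : IsCompactSurfaceWithBoundary M B) {x : E}
    (hx : x ∈ M \ B) : ∃ (N : Set E) (P : ℝ × ℝ → E) (Ω : Set (ℝ × ℝ)) (r : ℝ),
      x ∈ N ∧ Disjoint N B ∧ Box M N P Ω (-r) r ∧ ∀ t ∈ Icc (-r) r, P (-r, t) ∉ N := by
  obtain ⟨Φ, K, h1, h2, hxS, hK, hM⟩ := h.interior_point x hx
  obtain ⟨u, v, huK, hvK, hu, hv, huv, hexp⟩ := m3a_basis hK
  set q := Φ x with hq
  have hqK : q ∈ K := (hM x hxS).1 hx.1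
  set L := m3aL u v with hL
  have hLk : ∀ k : ℝ × ℝ, L k = k.1 • u + k.2 • v := m3aL_apply u v
  have hvu : ⟪v, u⟫_ℝ = 0 := by rw [real_inner_comm]; exact huv
  have huu : ⟪u, u⟫_ℝ = 1 := by rw [real_inner_self_eq_norm_sq, hu]; norm_num
  have hvv : ⟪v, v⟫_ℝ = 1 := by rw [real_inner_self_eq_norm_sq, hv]; norm_num
  have hLu : ∀ k : ℝ × ℝ, ⟪u, L k⟫_ℝ = k.1 := by
    intro k
    rw [hLk, inner_add_right, real_inner_smul_right, real_inner_smul_right, huu, huv]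
    ring
  have hLv : ∀ k : ℝ × ℝ, ⟪v, L k⟫_ℝ = k.2 := by
    intro k
    rw [hLk, inner_add_right, real_inner_smul_right, real_inner_smul_right, hvu, hvv]
    ring
  have hLK : ∀ k, L k ∈ K := by
    intro k
    rw [hLk]
    exact K.add_mem (K.smul_mem _ huK) (K.smul_mem _ hvK)
  have hLinj : Function.Injective L := by
    intro k k' hkk
    have e1 := hLu k
    have e2 := hLv k
    rw [hkk] at e1 e2
    rw [hLu] at e1
    rw [hLv] at e2
    exact Prod.ext e1.symm e2.symm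
  have hLsurj : ∀ w ∈ K, L (⟪u, w⟫_ℝ, ⟪v, w⟫_ℝ) = w := by
    intro w hw
    rw [hLk]
    exact (hexp w hw).symm
  set P : ℝ × ℝ → E := fun k => Φ.symm (q + L k) with hP
  set Ω : Set (ℝ × ℝ) := (fun k => q + L k) ⁻¹' Φ.target with hΩ
  have hcont : Continuous (fun k : ℝ × ℝ => q + L k) := continuous_const.add L.continuous
  have hΩo : IsOpen Ω := Φ.open_target.preimage hcont
  have h0Ω : ((0 : ℝ), (0 : ℝ)) ∈ Ω := by
    change q + L (0, 0) ∈ Φ.target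
    rw [show L ((0 : ℝ), (0 : ℝ)) = 0 from map_zero L, add_zero]
    exact Φ.map_source hxS
  have hΦP : ∀ k ∈ Ω, Φ (P k) = q + L k := fun k hk => Φ.right_inv hk
  have hPS : ∀ k ∈ Ω, P k ∈ Φ.source := fun k hk => Φ.map_target hk
  have hPM : ∀ k ∈ Ω, P k ∈ M := by
    intro k hk
    rw [hM _ (hPS k hk), hΦP k hk]
    exact K.add_mem hqK (hLK k)
  have hPd : ∀ k ∈ Ω, fderiv ℝ P k = (fderiv ℝ Φ.symm (q + L k)) ∘L L := by
    intro k hk
    have hd : DifferentiableAt ℝ Φ.symm (q + L k) :=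
      (h2.contDiffAt (Φ.open_target.mem_nhds hk)).differentiableAt (by simp)
    have hg : HasFDerivAt (fun k : ℝ × ℝ => q + L k) L k := L.hasFDerivAt.const_add q
    exact (hd.hasFDerivAt.comp k hg).fderiv
  -- the radius
  obtain ⟨ρ, hρ, hball⟩ := Metric.isOpen_iff.1 hΩo _ h0Ω
  set r := ρ / 2 with hr
  have hr0 : 0 < r := by positivity
  have hbox : ∀ k ∈ Icc (-r) r ×ˢ Icc (-r) r, k ∈ Ω := by
    rintro ⟨s, t⟩ ⟨hs, ht⟩
    apply hball
    rw [Metric.mem_ball, Prod.dist_eq, max_lt_iff]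
    simp only [mem_Icc] at hs ht
    constructor
    · rw [Real.dist_eq, sub_zero]
      exact lt_of_le_of_lt (abs_le.2 hs) (by rw [hr]; linarith)
    · rw [Real.dist_eq, sub_zero]
      exact lt_of_le_of_lt (abs_le.2 ht) (by rw [hr]; linarith)
  set V : Set E := {y | |⟪u, y - q⟫_ℝ| < r ∧ |⟪v, y - q⟫_ℝ| < r} with hV
  have hVo : IsOpen V := by
    apply IsOpen.and
    · exact isOpen_lt (by fun_prop) continuous_const
    · exact isOpen_lt (by fun_prop) continuous_const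
  set N : Set E := (Φ.source ∩ Φ ⁻¹' V) ∩ Bᶜ with hN
  have hNo : IsOpen N :=
    (Φ.continuousOn.isOpen_inter_preimage Φ.open_source hVo).inter h.isClosed_boundary.isOpen_compl
  have hnot : ∀ k ∈ Ω, (r ≤ |k.1| ∨ r ≤ |k.2|) → P k ∉ N := by
    intro k hk hkr hkN
    have hVk : Φ (P k) ∈ V := hkN.1.2
    rw [hΦP k hk] at hVk
    have e1 := hVk.1
    have e2 := hVk.2
    rw [add_sub_cancel_left, hLu] at e1
    rw [add_sub_cancel_left, hLv] at e2
    rcases hkr with hk1 | hk2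
    · linarith
    · linarith
  refine ⟨N, P, Ω, r, ⟨⟨hxS, ?_⟩, hx.2⟩, ?_, ?_, ?_⟩
  · change |⟪u, Φ x - q⟫_ℝ| < r ∧ |⟪v, Φ x - q⟫_ℝ| < r
    rw [hq, sub_self, inner_zero_right, inner_zero_right, abs_zero]
    exact ⟨hr0, hr0⟩
  · rw [Set.disjoint_left]
    intro y hy
    exact hy.2
  · refine ⟨hr0, by linarith, hΩo, hNo, hbox, ?_, ?_, ?_, ?_, ?_, ?_, ?_, ?_, ?_⟩
    · have : ContDiffOn ℝ ∞ (fun k : ℝ × ℝ => q + L k) Ω :=
        (contDiff_const.add L.contDiff).contDiffOn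
      exact h2.comp this (fun k hk => hk)
    · intro k hk k' hk' hkk
      have e1 := hΦP k hk
      rw [hkk, hΦP k' hk'] at e1
      exact (hLinj (add_left_cancel e1)).symm
    · intro k hk
      rw [hPd k hk]
      intro a b hab
      have e1 : fderiv ℝ Φ.symm (Φ (P k)) (L a) = fderiv ℝ Φ.symm (Φ (P k)) (L b) := by
        rw [hΦP k hk]; exact hab
      have e2 := congrArg (fderiv ℝ Φ (P k)) e1
      rw [fderiv_comp_symm h1 h2 (hPS k hk), fderiv_comp_symm h1 h2 (hPS k hk)] at e2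
      exact hLinj e2
    · intro k hk
      exact hPM k (hbox k hk)
    · rintro y ⟨hyM, ⟨hyS, hyV⟩, -⟩
      have hyK : Φ y ∈ K := (hM y hyS).1 hyM
      have hyqK : Φ y - q ∈ K := K.sub_mem hyK hqK
      have hyV' : |⟪u, Φ y - q⟫_ℝ| < r ∧ |⟪v, Φ y - q⟫_ℝ| < r := hyV
      refine ⟨(⟪u, Φ y - q⟫_ℝ, ⟪v, Φ y - q⟫_ℝ), ⟨?_, ?_⟩, ?_⟩
      · exact abs_le.1 hyV'.1.le
      · exact abs_le.1 hyV'.2.le
      · change Φ.symm (q + L _) = y
        rw [hLsurj _ hyqK, add_sub_cancel]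
        exact Φ.left_inv hyS
    · intro t ht
      exact hnot _ (hbox _ ⟨⟨by linarith, le_rfl⟩, ht⟩) (Or.inl (le_abs_self r))
    · intro s hs
      exact hnot _ (hbox _ ⟨hs, ⟨by linarith, le_rfl⟩⟩) (Or.inr (le_abs_self r))
    · intro s hs
      refine hnot _ (hbox _ ⟨hs, ⟨le_rfl, by linarith⟩⟩) (Or.inr ?_)
      change r ≤ |(-r)|
      rw [abs_neg]
      exact le_abs_self r
    · intro k hk
      have hkΩ := hbox k hk
      rw [tangentPlane_eq h1 h2 hM (hPS k hkΩ) (hPM k hkΩ)]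
      apply le_antisymm
      · rintro _ ⟨w, rfl⟩
        refine ⟨(⟪u, (w : E)⟫_ℝ, ⟪v, (w : E)⟫_ℝ), ?_⟩
        change fderiv ℝ P k _ = fderiv ℝ Φ.symm (Φ (P k)) (w : E)
        rw [hPd k hkΩ, hΦP k hkΩ]
        change fderiv ℝ Φ.symm (q + L k) (L _) = _
        rw [hLsurj _ w.2]
      · rintro _ ⟨a, rfl⟩
        refine ⟨⟨L a, hLK a⟩, ?_⟩
        change fderiv ℝ Φ.symm (Φ (P k)) (L a) = fderiv ℝ P k a
        rw [hPd k hkΩ, hΦP k hkΩ]
        rfl
  · intro t ht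
    refine hnot _ (hbox _ ⟨⟨le_rfl, by linarith⟩, ht⟩) (Or.inl ?_)
    change r ≤ |(-r)|
    rw [abs_neg]
    exact le_abs_self r

end Pool.Agent.Helper74.Iso3
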